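import Pool.Agent.Helper980.Polar.Gch

/-!
# Over every model of GCH, `R_κ(ℵ₁)` can be forced to fail, with GCH and all cardinals preserved

Assume GCH. For every cardinal `κ > cf κ = ℵ₀` (for example `ℵ_ω`) there is a notion of forcing
all of whose conditions force the following three sentences: all cardinals of the ground model
are cardinals, GCH holds, and there is a partition `κ × κ⁺ = Δ₀ ∪ Δ₁` such that no product of a
set of size `κ` and a set of size `κ⁺` is contained in `Δ₀` and no product of a set of size `κ`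
and a set of size `ℵ₁` is contained in `Δ₁`.
-/

set_option autoImplicit false

namespace Pool.Agent.Results.MP_bc45ee_lc.ForcedUnderGCH

open Cardinal Ordinal Pool.Agent.Helper980.G
open Pool.Agent.Helper669.Forcing (fnot CardinalsPreserved)

/-- Some notion of forcing `P` is such that all its conditions force that all cardinals are
preserved, that GCH holds, and that the relation `R_κ(ℵ₁)` fails. -/
def FailureForced (κ : Cardinal.{0}) : Prop :=
  ∃ (P : Type) (_ : Preorder P), Nonempty P ∧ ∀ p : P,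
    p ∈ CardinalsPreserved.{0, 0} P ∧ p ∈ ForcesGCH P ∧
    p ∈ fnot (RelationR P κ.ord.ToType (Order.succ κ).ord.ToType
      (ℵ_ 1 : Cardinal.{0}).ord.ToType)

theorem cof_aleph_omega : (ℵ_ (ω : Ordinal.{0})).ord.cof = ℵ₀ := by
  rw [ord_aleph, cof_omega isSuccLimit_omega0, cof_omega0]

/-- **Main theorem.** -/
theorem result (hG : ∀ ν : Cardinal.{0}, ℵ₀ ≤ ν → 2 ^ ν = Order.succ ν) :
    (∀ κ : Cardinal.{0}, ℵ₀ < κ → κ.ord.cof = ℵ₀ → FailureForced κ) ∧
    FailureForced (ℵ_ (ω : Ordinal.{0})) := by
  have h1 : ∀ κ : Cardinal.{0}, ℵ₀ < κ → κ.ord.cof = ℵ₀ → FailureForced κ :=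
    fun κ h0 h1 => forcedR hG κ h0 h1
  refine ⟨h1, h1 _ ?_ cof_aleph_omega⟩
  rw [← aleph_zero]
  exact aleph_lt_aleph.2 omega0_pos

end Pool.Agent.Results.MP_bc45ee_lc.ForcedUnderGCH
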